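import Pool.Agent.MWGR.StmtsF

set_option autoImplicit false

/-!
# Row FES (MP_23468a_al, block MWGR, part F)
-/

namespace Pool.Agent.MWGR.H34

open Pool.Agent.Helper14_MV Pool.Agent.Helper2_MV Pool.Agent.MVO Pool.Agent.MWL Pool.Agent.MWS
  Pool.Agent.MWH Pool.Agent.MWGR

theorem fes (h1 : ExgStmt) (h2 : EclStmt) : FesFStmt := by
  intro n θ hB hF c
  have hn := hB.pos
  have e1 : Es n 1 (RR θ) :=
    hF [] [3] [] [] 0 1 2 (by decide) (by decide) (by decide) (fun c hc => absurd hc (by simp))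
  have hm : n + n ≡ n [MOD n] := by simp [Nat.ModEq]
  have hX : X n = 0 :: X (n - 1) := by
    obtain ⟨k, rfl⟩ : ∃ k, n = k + 1 := ⟨n - 1, by omega⟩
    simp [X, List.replicate_succ]
  have d1 : RR θ ([] ++ (List.replicate (n + n) 0 ++ (1 :: (X n ++ [2, 1]))))
      ([] ++ (List.replicate n 0 ++ (1 :: (X n ++ [2, 1])))) := by
    refine (h1 n θ hB [] (1 :: (X n ++ [2, 1])) 0 (n + n) n hm).2.2.2 [1] (X (n - 1) ++ [2, 1]) ?_
      (by omega) hn ?_
    · rw [hX]; simp
    · intro c hc hc0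
      have : c = 1 := by simpa using hc
      subst this
      simp [List.count_replicate]
  have d2 : RR θ ((X n ++ [1]) ++ (List.replicate n 0 ++ [2, 1]))
      ((X n ++ [1]) ++ (List.replicate (n + n) 0 ++ [2, 1])) := by
    refine (h1 n θ hB (X n ++ [1]) [2, 1] 0 n (n + n) hm.symm).1 ?_ hn (by omega)
    rw [hX]; simp
  have dm : Dm n n (RR θ) := by
    unfold Dm
    have e2 : (X n ++ [1]) ++ (List.replicate n 0 ++ [2, 1]) = X n ++ 1 :: (X n ++ [2, 1]) := by
      simp
    have e3 : (X n ++ [1]) ++ (List.replicate (n + n) 0 ++ [2, 1]) =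
        X n ++ 1 :: (X (n + n) ++ [2, 1]) := by
      simp
    rw [e2, e3] at d2
    exact θ.trans d1 d2
  exact h2 n θ hB [3, 1, 2] (by decide) (by decide) (by decide) n 1 c hn dm (by simp) e1

end Pool.Agent.MWGR.H34
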